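import Pool.Agent.OddTwo.Alg
import Pool.Agent.OddDiam.LinAlg
import Pool.Agent.OddDiam.Lym

/-! # MP_f155e9_co: antichains with `min (|A \ B|) (|B \ A|) ≤ s` in `[2 s + 3]` -/

set_option autoImplicit false

namespace Pool.Agent.OddTwo

open Finset

variable {n s : ℕ}

/-- the weighted sum over the members above `S`, on level `s + r` -/
noncomputable def yy (F : Finset (Finset (Fin n))) (c : Finset (Fin n) → ℝ) (s r : ℕ)
    (S : Finset (Fin n)) : ℝ :=
  if S.card = s + r then ∑ A ∈ F with S ⊆ A, c A / ((A.card - s).choose r : ℝ) else 0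

/-- the level `s + r` part -/
noncomputable def vv (F : Finset (Finset (Fin n))) (c : Finset (Fin n) → ℝ) (s r : ℕ)
    (S : Finset (Fin n)) : ℝ := if S ∈ F ∧ S.card = s + r then c S else 0

theorem yy_lev (F : Finset (Finset (Fin n))) (c : Finset (Fin n) → ℝ) (r : ℕ) :
    Lev (s + r) (yy F c s r) := fun S hS => if_neg hS

theorem vv_lev (F : Finset (Finset (Fin n))) (c : Finset (Fin n) → ℝ) (r : ℕ) :
    Lev (s + r) (vv F c s r) := fun S hS => if_neg fun h => hS h.2

/-- the part strictly above `S` -/
theorem D_yy (F : Finset (Finset (Fin n))) (c : Finset (Fin n) → ℝ) (r : ℕ)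
    {S : Finset (Fin n)} (hS : S.card = s + r) :
    D (yy F c s (r + 1)) S =
      (r + 1) * ∑ A ∈ F with S ⊂ A, c A / ((A.card - s).choose r : ℝ) := by
  have h1 : D (yy F c s (r + 1)) S = ∑ x ∈ Sᶜ, ∑ A ∈ F with insert x S ⊆ A,
      c A / ((A.card - s).choose (r + 1) : ℝ) := by
    rw [D]
    refine sum_congr rfl fun x hx => ?_
    rw [yy, if_pos]
    rw [card_insert_of_notMem (mem_compl.1 hx), hS]
    ring
  rw [h1]
  simp only [sum_filter]
  rw [sum_comm, mul_sum]
  refine sum_congr rfl fun A _ => ?_
  by_cases hSA : S ⊂ A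
  · rw [if_pos hSA]
    have h2 : ∑ x ∈ Sᶜ, (if insert x S ⊆ A then c A / ((A.card - s).choose (r + 1) : ℝ) else 0) =
        ∑ x ∈ A \ S, c A / ((A.card - s).choose (r + 1) : ℝ) := by
      rw [← sum_filter]
      congr 1
      ext x
      simp only [mem_filter, mem_compl, mem_sdiff, insert_subset_iff]
      have := hSA.subset
      tauto
    rw [h2, sum_const, nsmul_eq_mul, card_sdiff_of_subset hSA.subset, hS]
    have h3 : s + r < A.card := by
      rw [← hS]
      exact card_lt_card hSA
    obtain ⟨u, hu⟩ : ∃ u, A.card = s + r + (u + 1) := ⟨A.card - (s + r) - 1, by omega⟩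
    have e1 : A.card - (s + r) = u + 1 := by omega
    have e2 : A.card - s = r + (u + 1) := by omega
    rw [e1, e2]
    have h4 : ((r + (u + 1)).choose (r + 1) : ℝ) * (r + 1) =
        ((r + (u + 1)).choose r : ℝ) * (u + 1) := by
      have := Nat.choose_succ_right_eq (r + (u + 1)) r
      rw [show r + (u + 1) - r = u + 1 by omega] at this
      exact_mod_cast this
    have h5 : ((r + (u + 1)).choose (r + 1) : ℝ) ≠ 0 := by
      have : 0 < (r + (u + 1)).choose (r + 1) := Nat.choose_pos (by omega)
      exact_mod_cast this.ne'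
    have h6 : ((r + (u + 1)).choose r : ℝ) ≠ 0 := by
      have : 0 < (r + (u + 1)).choose r := Nat.choose_pos (by omega)
      exact_mod_cast this.ne'
    push_cast
    rw [mul_div_assoc', mul_div_assoc', div_eq_div_iff h5 h6]
    linear_combination (-(c A)) * h4
  · rw [if_neg hSA, mul_zero]
    refine sum_eq_zero fun x hx => ?_
    rw [if_neg]
    intro h
    apply hSA
    refine Finset.ssubset_iff_subset_ne.2 ⟨(subset_insert x S).trans h, ?_⟩
    rintro rfl
    exact (mem_compl.1 hx) (h (mem_insert_self x S))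

theorem yy_split (F : Finset (Finset (Fin n))) (c : Finset (Fin n) → ℝ) (r : ℕ) :
    yy F c s r = vv F c s r + (1 / ((r : ℝ) + 1)) • D (yy F c s (r + 1)) := by
  funext S
  rw [Pi.add_apply, Pi.smul_apply, smul_eq_mul]
  by_cases hS : S.card = s + r
  · rw [D_yy F c r hS, yy, if_pos hS, ← mul_assoc]
    have e : 1 / ((r : ℝ) + 1) * (r + 1) = 1 := by
      have : (r : ℝ) + 1 ≠ 0 := by positivity
      field_simp
    rw [e, one_mul, vv]
    by_cases hSF : S ∈ F
    · rw [if_pos ⟨hSF, hS⟩]
      have h1 : F.filter (fun A => S ⊆ A) = insert S (F.filter (fun A => S ⊂ A)) := by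
        ext A
        simp only [mem_filter, mem_insert, ssubset_iff_subset_ne]
        constructor
        · rintro ⟨hA, hSA⟩
          by_cases h : S = A
          · exact Or.inl h.symm
          · exact Or.inr ⟨hA, hSA, h⟩
        · rintro (rfl | ⟨hA, hSA, _⟩)
          · exact ⟨hSF, Subset.refl _⟩
          · exact ⟨hA, hSA⟩
      rw [h1, sum_insert (by simp), show S.card - s = r by omega, Nat.choose_self]
      simp
    · rw [if_neg (fun h => hSF h.1), zero_add]
      refine sum_congr ?_ fun _ _ => rfl
      ext A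
      simp only [mem_filter, ssubset_iff_subset_ne]
      constructor
      · rintro ⟨hA, hSA⟩
        exact ⟨hA, hSA, fun h => hSF (h ▸ hA)⟩
      · rintro ⟨hA, hSA, _⟩
        exact ⟨hA, hSA⟩
  · rw [yy_lev F c r S hS, vv_lev F c r S hS]
    have h1 : Lev (s + r) (D (yy F c s (r + 1))) := Lev.D (yy_lev F c (r + 1))
    rw [h1 S hS]
    ring

/-- above a member there is nothing -/
theorem D_yy_mem {F : Finset (Finset (Fin n))} (c : Finset (Fin n) → ℝ) {r : ℕ}
    (hanti : IsAntichain (· ⊆ ·) (F : Set (Finset (Fin n)))) {S : Finset (Fin n)}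
    (hS : S ∈ F) (hSc : S.card = s + r) : D (yy F c s (r + 1)) S = 0 := by
  rw [D_yy F c r hSc]
  apply mul_eq_zero_of_right
  refine sum_eq_zero fun A hA => ?_
  rw [mem_filter] at hA
  exact absurd hA.2.subset (hanti hS hA.1 hA.2.ne)

theorem D_vv_mem {F : Finset (Finset (Fin n))} (c : Finset (Fin n) → ℝ) {r r' : ℕ}
    (hanti : IsAntichain (· ⊆ ·) (F : Set (Finset (Fin n)))) {S : Finset (Fin n)}
    (hS : S ∈ F) (hSc : S.card = s + r) : D (vv F c s r') S = 0 := by
  rw [D]
  refine sum_eq_zero fun x hx => ?_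
  rw [vv, if_neg]
  rintro ⟨h1, _⟩
  exact hanti hS h1 (fun h => (mem_compl.1 hx) (h ▸ mem_insert_self x S)) (subset_insert x S)

theorem vv_mem {F : Finset (Finset (Fin n))} (c : Finset (Fin n) → ℝ) {r : ℕ}
    (hanti : IsAntichain (· ⊆ ·) (F : Set (Finset (Fin n)))) {S : Finset (Fin n)}
    (hS : S ∈ F) (hSc : S.card = s + r) : yy F c s r S = c S := by
  have h1 := congrFun (yy_split (s := s) F c r) S
  rw [Pi.add_apply, Pi.smul_apply, D_yy_mem c hanti hS hSc, smul_zero, add_zero] at h1
  rw [h1, vv, if_pos ⟨hS, hSc⟩]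

/-- sizes at least `s` -/
theorem indep (hn : n = 2 * s + 3) {F : Finset (Finset (Fin n))}
    (hanti : IsAntichain (· ⊆ ·) (F : Set (Finset (Fin n))))
    (hsize : ∀ A ∈ F, s ≤ A.card)
    (hM : ∀ A ∈ F, ∀ B ∈ F, (A \ B).card ≤ s ∨ (B \ A).card ≤ s)
    (c : Finset (Fin n) → ℝ)
    (hc : ∀ S : Finset (Fin n), S.card = s → ∑ A ∈ F with S ⊆ A, c A = 0) :
    ∀ A ∈ F, c A = 0 := by
  have hy0 : yy F c s 0 = 0 := by
    funext S
    by_cases hS : S.card = s + 0
    · rw [yy, if_pos hS]
      simp only [Nat.choose_zero_right, Nat.cast_one, div_one]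
      exact hc S (by omega)
    · exact yy_lev F c 0 S hS
  have hv0 : vv F c s 0 = 0 := by
    funext S
    by_cases hS : S ∈ F ∧ S.card = s + 0
    · rw [vv, if_pos hS, ← vv_mem c hanti hS.1 hS.2, hy0]
    · rw [vv, if_neg hS]
      rfl
  have hDy1 : D (yy F c s 1) = 0 := by
    have h1 := yy_split (s := s) F c 0
    rw [hy0, hv0, zero_add] at h1
    funext S
    have h2 := congrFun h1 S
    simp only [Pi.zero_apply, Pi.smul_apply, smul_eq_mul, Nat.cast_zero, zero_add, ne_eq,
      one_ne_zero, not_false_eq_true, div_self, one_mul] at h2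
    exact h2.symm
  have h1 : yy F c s 1 = vv F c s 1 + (1 / 2 : ℝ) • D (yy F c s 2) := by
    have := yy_split (s := s) F c 1
    norm_num at this
    rw [this]
  have h2 : yy F c s 2 = vv F c s 2 + (1 / 3 : ℝ) • D (yy F c s 3) := by
    have := yy_split (s := s) F c 2
    norm_num at this
    rw [this]
  -- the orthogonality relations
  have a1 : ip (vv F c s 1) (D (vv F c s 2)) = 0 := by
    refine sum_eq_zero fun S _ => ?_
    by_cases hS : S ∈ F ∧ S.card = s + 1
    · rw [D_vv_mem c hanti hS.1 hS.2, mul_zero]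
    · rw [vv, if_neg hS, zero_mul]
  have a3 : ip (vv F c s 2) (D (yy F c s 3)) = 0 := by
    refine sum_eq_zero fun S _ => ?_
    by_cases hS : S ∈ F ∧ S.card = s + 2
    · rw [D_yy_mem c hanti hS.1 hS.2, mul_zero]
    · rw [vv, if_neg hS, zero_mul]
  have a2 : ip (vv F c s 1) (D (D (yy F c s 3))) = 0 := by
    have e : D (D (yy F c s 3)) = (3 : ℝ) • (D (yy F c s 2) + (-1 : ℝ) • D (vv F c s 2)) := by
      have e1 : D (yy F c s 2) = D (vv F c s 2) + (1 / 3 : ℝ) • D (D (yy F c s 3)) := by
        conv_lhs => rw [h2]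
        rw [D_add, D_smul]
      rw [e1]
      funext S
      simp only [Pi.add_apply, Pi.smul_apply, smul_eq_mul]
      ring
    rw [e, ip_smul_right, ip_add_right, ip_smul_right, a1]
    have : ip (vv F c s 1) (D (yy F c s 2)) = 0 := by
      refine sum_eq_zero fun S _ => ?_
      by_cases hS : S ∈ F ∧ S.card = s + 1
      · rw [D_yy_mem c hanti hS.1 hS.2, mul_zero]
      · rw [vv, if_neg hS, zero_mul]
    rw [this]
    ring
  have hcard : ∀ S : Finset (Fin n), (Sᶜ).card = n - S.card := by
    intro S
    rw [card_compl, Fintype.card_fin]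
  have a4 : ip (vv F c s 1) (st (vv F c s 2)) = 0 := by
    refine sum_eq_zero fun S _ => ?_
    by_cases hS : S ∈ F ∧ S.card = s + 1
    · rw [st, vv, vv]
      by_cases hS' : Sᶜ ∈ F ∧ (Sᶜ).card = s + 2
      · exfalso
        have h3 := hM S hS.1 Sᶜ hS'.1
        have e1 : S \ Sᶜ = S := by ext x; simp
        have e2 : Sᶜ \ S = Sᶜ := by ext x; simp
        rw [e1, e2] at h3
        omega
      · rw [if_neg hS', mul_zero]
    · rw [vv, if_neg hS, zero_mul]
  have a5 : ip (vv F c s 1) (D (st (vv F c s 1))) = 0 := by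
    refine sum_eq_zero fun S _ => ?_
    by_cases hS : S ∈ F ∧ S.card = s + 1
    · apply mul_eq_zero_of_right
      rw [D]
      refine sum_eq_zero fun x hx => ?_
      rw [st, vv, if_neg]
      rintro ⟨h3, h4⟩
      have h5 := hM S hS.1 _ h3
      have e1 : S \ (insert x S)ᶜ = S := by
        ext z
        simp only [mem_sdiff, mem_compl, mem_insert, not_not]
        tauto
      have e2 : (insert x S)ᶜ \ S = (insert x S)ᶜ := by
        ext z
        simp only [mem_sdiff, mem_compl, mem_insert, not_or]
        tauto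
      rw [e1, e2] at h5
      omega
    · rw [vv, if_neg hS, zero_mul]
  have a6 : ip (st (vv F c s 2)) (D (vv F c s 2)) = 0 := by
    refine sum_eq_zero fun S _ => ?_
    rw [st]
    by_cases hS : Sᶜ ∈ F ∧ (Sᶜ).card = s + 2
    · apply mul_eq_zero_of_right
      rw [D]
      refine sum_eq_zero fun x hx => ?_
      rw [vv, if_neg]
      rintro ⟨h3, h4⟩
      have h5 := hM _ hS.1 _ h3
      have hSc : S.card + 1 = s + 2 := by
        rw [card_insert_of_notMem (mem_compl.1 hx)] at h4
        omega
      have e1 : (Sᶜ \ insert x S).card = s + 1 := by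
        have : Sᶜ \ insert x S = Sᶜ.erase x := by
          ext z
          simp only [mem_sdiff, mem_compl, mem_insert, mem_erase, not_or]
          tauto
        rw [this, card_erase_of_mem hx, hS.2]
        omega
      have e2 : (insert x S \ Sᶜ).card = s + 1 := by
        have : insert x S \ Sᶜ = S := by
          ext z
          simp only [mem_sdiff, mem_compl, mem_insert, not_not]
          tauto
        rw [this]
        omega
      omega
    · rw [vv, if_neg hS, zero_mul]
  obtain ⟨z1, z2, z3⟩ := core hn (vv_lev F c 1) (vv_lev F c 2) (yy_lev F c 3) (yy_lev F c 1)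
    h1 h2 hDy1 a1 a2 a3 a4 a5 a6
  -- everything above
  have hup : ∀ r, yy F c s (r + 3) = 0 := by
    intro r
    induction r with
    | zero => exact z3
    | succ r ih =>
      have h3 : vv F c s (r + 3) = 0 := by
        funext S
        by_cases hS : S ∈ F ∧ S.card = s + (r + 3)
        · rw [vv, if_pos hS, ← vv_mem c hanti hS.1 hS.2, ih]
        · rw [vv, if_neg hS]
          rfl
      have h4 := yy_split (s := s) F c (r + 3)
      rw [ih, h3, zero_add] at h4
      refine D_inj (t := s + (r + 1 + 3)) (by omega) (yy_lev F c _) ?_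
      funext S
      have h5 := congrFun h4 S
      simp only [Pi.zero_apply, Pi.smul_apply, smul_eq_mul] at h5
      rw [Pi.zero_apply]
      rcases mul_eq_zero.1 h5.symm with h6 | h6
      · exfalso
        have : (0 : ℝ) < 1 / (((r + 3 : ℕ) : ℝ) + 1) := by positivity
        linarith
      · rw [show r + 1 + 3 = r + 3 + 1 by ring]
        exact h6
  intro A hA
  obtain ⟨u, hu⟩ : ∃ u, A.card = s + u := ⟨A.card - s, by have := hsize A hA; omega⟩
  rcases u with _ | _ | _ | u
  · rw [← vv_mem c hanti hA hu, hy0]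
    rfl
  · have := congrFun z1 A
    rw [vv, if_pos ⟨hA, hu⟩] at this
    exact this
  · have := congrFun z2 A
    rw [vv, if_pos ⟨hA, hu⟩] at this
    exact this
  · rw [← vv_mem c hanti hA hu, hup u]
    rfl

theorem bound_large (hn : n = 2 * s + 3) {F : Finset (Finset (Fin n))}
    (hanti : IsAntichain (· ⊆ ·) (F : Set (Finset (Fin n))))
    (hsize : ∀ A ∈ F, s ≤ A.card)
    (hM : ∀ A ∈ F, ∀ B ∈ F, (A \ B).card ≤ s ∨ (B \ A).card ≤ s) :
    F.card ≤ n.choose s := by
  by_contra hcon
  rw [not_le] at hcon
  obtain ⟨c, ⟨A, hA, hcA⟩, hc⟩ := OddDiam.exists_kernel F (powersetCard s (univ : Finset (Fin n)))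
    (fun S A => if S ⊆ A then (1 : ℝ) else 0) (by
      rw [card_powersetCard, card_univ, Fintype.card_fin]
      exact hcon)
  refine hcA (indep hn hanti hsize hM c (fun S hS => ?_) A hA)
  have := hc S (mem_powersetCard_univ.2 hS)
  rw [← this, sum_filter]
  refine sum_congr rfl fun B _ => ?_
  split_ifs <;> simp

/-- all sizes -/
theorem bound (hn : n = 2 * s + 3) {F : Finset (Finset (Fin n))}
    (hanti : IsAntichain (· ⊆ ·) (F : Set (Finset (Fin n))))
    (hM : ∀ A ∈ F, ∀ B ∈ F, (A \ B).card ≤ s ∨ (B \ A).card ≤ s) :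
    F.card ≤ n.choose s := by
  classical
  set F0 := F.filter (fun A => A.card < s) with hF0
  set F1 := F.filter (fun A => ¬ A.card < s) with hF1
  set N := powersetCard s (univ : Finset (Fin n)) with hN
  set P := N.filter (fun S => ∃ A ∈ F0, A ⊆ S) with hP
  set R := N.filter (fun S => ¬ ∃ A ∈ F0, A ⊆ S) with hR
  have hsplit : F0.card + F1.card = F.card := card_filter_add_card_filter_not _
  have hNsplit : P.card + R.card = n.choose s := by
    rw [hP, hR, card_filter_add_card_filter_not, hN, card_powersetCard, card_univ,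
      Fintype.card_fin]
  have hmemN : ∀ {S : Finset (Fin n)}, S ∈ N ↔ S.card = s := by
    intro S
    rw [hN, mem_powersetCard_univ]
  -- pushing up
  have hpush : F0.card + R.card ≤ n.choose s := by
    rw [← card_union_of_disjoint]
    · have h1 := OddDiam.lym_le (α := Fin n) (t := s) (by rw [Fintype.card_fin]; omega)
        (F := F0 ∪ R) ?_ ?_
      · rwa [Fintype.card_fin] at h1
      · intro A hA B hB hne hAB
        rw [mem_coe, mem_union] at hA hB
        rcases hA with hA | hA
        · rcases hB with hB | hB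
          · exact hanti (mem_filter.1 hA).1 (mem_filter.1 hB).1 hne hAB
          · exact (mem_filter.1 hB).2 ⟨A, hA, hAB⟩
        · have h2 := hmemN.1 (mem_filter.1 hA).1
          rcases hB with hB | hB
          · have h3 := (mem_filter.1 hB).2
            have h4 := card_le_card hAB
            omega
          · have h3 := hmemN.1 (mem_filter.1 hB).1
            exact hne (eq_of_subset_of_card_le hAB (by omega))
      · intro A hA
        rw [mem_union] at hA
        rcases hA with hA | hA
        · exact (mem_filter.1 hA).2.le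
        · exact (hmemN.1 (mem_filter.1 hA).1).le
    · rw [disjoint_left]
      intro A hA hA'
      have h1 := (mem_filter.1 hA).2
      have h2 := hmemN.1 (mem_filter.1 hA').1
      omega
  have hdis : Disjoint P F1 := by
    rw [disjoint_left]
    intro S hS hS'
    obtain ⟨A, hA, hAS⟩ := (mem_filter.1 hS).2
    have h1 := (mem_filter.1 hA).2
    have h2 := hmemN.1 (mem_filter.1 hS).1
    refine hanti (mem_filter.1 hA).1 (mem_filter.1 hS').1 ?_ hAS
    rintro rfl
    omega
  have hmain : (P ∪ F1).card ≤ n.choose s := by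
    refine bound_large hn ?_ ?_ ?_
    · intro S hS T hT hne hST
      rw [mem_coe, mem_union] at hS hT
      rcases hS with hS | hS
      · have h2 := hmemN.1 (mem_filter.1 hS).1
        obtain ⟨A, hA, hAS⟩ := (mem_filter.1 hS).2
        rcases hT with hT | hT
        · have h3 := hmemN.1 (mem_filter.1 hT).1
          exact hne (eq_of_subset_of_card_le hST (by omega))
        · have h1 := (mem_filter.1 hA).2
          have h3 := (mem_filter.1 hT).2
          refine hanti (mem_filter.1 hA).1 (mem_filter.1 hT).1 ?_ (hAS.trans hST)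
          rintro rfl
          exact h3 h1
      · have h2 := (mem_filter.1 hS).2
        rcases hT with hT | hT
        · have h3 := hmemN.1 (mem_filter.1 hT).1
          have h4 := card_le_card hST
          exact hne (eq_of_subset_of_card_le hST (by omega))
        · exact hanti (mem_filter.1 hS).1 (mem_filter.1 hT).1 hne hST
    · intro A hA
      rw [mem_union] at hA
      rcases hA with hA | hA
      · exact (hmemN.1 (mem_filter.1 hA).1).ge
      · exact not_lt.1 (mem_filter.1 hA).2
    · intro A hA B hB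
      rw [mem_union] at hA hB
      rcases hA with hA | hA
      · left
        have h1 := hmemN.1 (mem_filter.1 hA).1
        have h2 : (A \ B).card ≤ A.card := card_le_card sdiff_subset
        omega
      · rcases hB with hB | hB
        · right
          have h1 := hmemN.1 (mem_filter.1 hB).1
          have h2 : (B \ A).card ≤ B.card := card_le_card sdiff_subset
          omega
        · exact hM A (mem_filter.1 hA).1 B (mem_filter.1 hB).1
  rw [card_union_of_disjoint hdis] at hmain
  omega

/-- `k = 2`, `n` odd -/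
theorem odd_two {n : ℕ} (hn : Odd n) (h2 : 2 ≤ n) (F : Finset (Finset (Fin n)))
    (hanti : IsAntichain (· ⊆ ·) (F : Set (Finset (Fin n))))
    (hdiam : ∀ A ∈ F, ∀ B ∈ F, (symmDiff A B).card ≤ n - 2) :
    F.card ≤ n.choose ((n + 2 + 1) / 2) := by
  obtain ⟨m, hm⟩ := hn
  obtain ⟨s, hs⟩ : ∃ s, m = s + 1 := ⟨m - 1, by omega⟩
  have hns : n = 2 * s + 3 := by omega
  have e1 : (n + 2 + 1) / 2 = n - s := by omega
  rw [e1, Nat.choose_symm (by omega)]
  refine bound hns hanti fun A hA B hB => ?_
  have h1 : (symmDiff A B).card = (A \ B).card + (B \ A).card := by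
    rw [symmDiff_def, sup_eq_union, card_union_of_disjoint disjoint_sdiff_sdiff]
  have h3 := hdiam A hA B hB
  omega

end Pool.Agent.OddTwo
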