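import Pool.Agent.OddTwo.Basic

/-! # MP_f155e9_co, `n` odd, `k = 2`: the linear algebra on the two middle levels -/

set_option autoImplicit false

namespace Pool.Agent.OddTwo

open Finset

variable {n : ℕ}

/-- orthogonal projection in coordinates -/
theorem exists_proj {ι : Type*} [Fintype ι] (K : Submodule ℝ (ι → ℝ)) (v : ι → ℝ) :
    ∃ p ∈ K, ∀ k ∈ K, ∑ i, (v i - p i) * k i = 0 := by
  let e := WithLp.linearEquiv 2 ℝ (ι → ℝ)
  let K' : Submodule ℝ (EuclideanSpace ℝ ι) := K.comap e.toLinearMap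
  refine ⟨e (K'.starProjection (e.symm v)), K'.starProjection_apply_mem (e.symm v), ?_⟩
  intro k hk
  have h1 : e.symm v - K'.starProjection (e.symm v) ∈ K'ᗮ :=
    K'.sub_starProjection_mem_orthogonal (e.symm v)
  have hk' : e.symm k ∈ K' := by
    change e (e.symm k) ∈ K
    rw [LinearEquiv.apply_symm_apply]
    exact hk
  have h2 := (Submodule.mem_orthogonal K' _).1 h1 (e.symm k) hk'
  rw [PiLp.inner_apply] at h2
  rw [← h2]
  refine sum_congr rfl fun i _ => ?_
  rfl

/-- the level `t` functions -/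
def levSub (t : ℕ) : Submodule ℝ (Finset (Fin n) → ℝ) where
  carrier := {f | Lev t f}
  add_mem' := fun hf hg => hf.add hg
  zero_mem' := fun _ _ => rfl
  smul_mem' := fun a _ hf => hf.smul a

/-- `D` as a linear map -/
def Dlin : (Finset (Fin n) → ℝ) →ₗ[ℝ] (Finset (Fin n) → ℝ) where
  toFun := D
  map_add' := D_add
  map_smul' := D_smul

/-- harmonic decomposition of one level -/
theorem decomp {t : ℕ} {v : Finset (Fin n) → ℝ} (hv : Lev t v) :
    ∃ h x : Finset (Fin n) → ℝ, v = h + D x ∧ Lev (t + 1) x ∧ Lev t h ∧ U h = 0 := by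
  obtain ⟨p, hp, hpk⟩ := exists_proj ((levSub (n := n) (t + 1)).map Dlin) v
  rw [Submodule.mem_map] at hp
  obtain ⟨x, hx, hxp⟩ := hp
  have hx' : Lev (t + 1) x := hx
  have hxp' : D x = p := hxp
  have hh : Lev t (v + (-1 : ℝ) • D x) := hv.add (hx'.D.smul _)
  refine ⟨v + (-1 : ℝ) • D x, x, ?_, hx', hh, ?_⟩
  · funext S
    simp
  · have h1 : ∀ z : Finset (Fin n) → ℝ, Lev (t + 1) z →
        ip (v + (-1 : ℝ) • D x) (D z) = 0 := by
      intro z hz
      have h2 := hpk (D z) (Submodule.mem_map.2 ⟨z, hz, rfl⟩)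
      rw [← h2, ← hxp']
      refine sum_congr rfl fun S _ => ?_
      simp only [Pi.add_apply, Pi.smul_apply, smul_eq_mul]
      ring
    have h3 := h1 _ hh.U
    rw [ip_comm, adj] at h3
    exact eq_zero_of_ip h3

section middle

variable {s : ℕ}

/-- `U` of a harmonic function of the lower middle level -/
theorem low_harm (hn : n = 2 * s + 3) {g : Finset (Fin n) → ℝ} (hg : Lev (s + 1) g)
    (h0 : D g = 0) : U (U g) = 0 := by
  have h1 : D (U g) = g := by
    rw [comm_lev hg, h0]
    have : U (0 : Finset (Fin n) → ℝ) = 0 := by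
      funext S
      simp [U]
    rw [this, zero_add]
    have e : (n : ℝ) - 2 * ((s + 1 : ℕ) : ℝ) = 1 := by
      rw [hn]
      push_cast
      ring
    rw [e, one_smul]
  have h2 : D (U (U g)) = 0 := by
    rw [comm_lev hg.U, h1]
    have e : (n : ℝ) - 2 * ((s + 1 + 1 : ℕ) : ℝ) = -1 := by
      rw [hn]
      push_cast
      ring
    rw [e]
    funext S
    simp
  apply eq_zero_of_ip
  have h3 : ip (U (U g)) (U (U g)) = ip (D (U (U g))) (U g) := by
    rw [adj]
  rw [h3, h2, ip_zero_left]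

/-- harmonic functions are orthogonal to `Im D²` -/
theorem harm_orth (hn : n = 2 * s + 3) {g : Finset (Fin n) → ℝ} (hg : Lev (s + 1) g)
    (h0 : D g = 0) (z : Finset (Fin n) → ℝ) : ip g (D (D z)) = 0 := by
  rw [ip_comm, adj, adj, low_harm hn hg h0, ip_zero_right]

/-- `D` of a harmonic function of the upper middle level -/
theorem high_harm (hn : n = 2 * s + 3) {h : Finset (Fin n) → ℝ} (hh : Lev (s + 2) h)
    (h0 : U h = 0) : D h = (-1 : ℝ) ^ (s + 1) • st h := by
  have h1 : Lev (s + 1) (st h) := Lev.st (by omega) hh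
  have h2 : D (st h) = 0 := by
    rw [D_st, h0]
    rfl
  have h3 := harm (k := s + 1) (by omega) h1 h2
  rwa [st_st] at h3

theorem high_harm_D (hn : n = 2 * s + 3) {h : Finset (Fin n) → ℝ} (hh : Lev (s + 2) h)
    (h0 : U h = 0) : D (D h) = 0 := by
  rw [high_harm hn hh h0, D_smul, D_st, h0]
  funext S
  simp [st]

/-- `D` expands by a factor `2` on `Im D` -/
theorem expand (hn : n = 2 * s + 3) {x : Finset (Fin n) → ℝ} (hx : Lev (s + 3) x) :
    4 * ip (D x) (D x) ≤ ip (D (D x)) (D (D x)) := by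
  have h1 := norm_id (t := s + 2) hx.D
  have e1 : (2 : ℝ) * ((s + 2 : ℕ) : ℝ) - n = 1 := by
    rw [hn]
    push_cast
    ring
  rw [e1, one_mul] at h1
  -- `‖U D x‖² ≥ 3 ‖D x‖²`
  have h2 : U (D x) = D (U x) + (3 : ℝ) • x := by
    rw [comm_lev hx]
    have e : (n : ℝ) - 2 * ((s + 3 : ℕ) : ℝ) = -3 := by
      rw [hn]
      push_cast
      ring
    rw [e]
    funext S
    simp
  have h3 : ip (U (D x)) (U (D x)) = ip (U (D x)) (D (U x)) + 3 * ip (D x) (D x) := by
    conv_lhs => arg 2; rw [h2]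
    rw [ip_add_right, ip_smul_right]
    have : ip (U (D x)) x = ip (D x) (D x) := by
      rw [ip_comm, ← adj]
    rw [this]
  have h4 : ip (U (D x)) (D (U x)) = ip (D (U x)) (D (U x)) + 3 * ip (U x) (U x) := by
    rw [h2, ip_add_left, ip_smul_left]
    have : ip x (D (U x)) = ip (U x) (U x) := by
      rw [ip_comm, adj]
    rw [this]
  have h5 := ip_self_nonneg (D (U x))
  have h6 := ip_self_nonneg (U x)
  linarith

/-- The algebraic core -/
theorem core (hn : n = 2 * s + 3) {v1 v2 y1 y2 y3 : Finset (Fin n) → ℝ}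
    (l1 : Lev (s + 1) v1) (l2 : Lev (s + 2) v2) (l3 : Lev (s + 3) y3) (ly1 : Lev (s + 1) y1)
    (h1 : y1 = v1 + (1 / 2 : ℝ) • D y2) (h2 : y2 = v2 + (1 / 3 : ℝ) • D y3) (h0 : D y1 = 0)
    (a1 : ip v1 (D v2) = 0) (a2 : ip v1 (D (D y3)) = 0) (a3 : ip v2 (D y3) = 0)
    (a4 : ip v1 (st v2) = 0) (a5 : ip v1 (D (st v1)) = 0) (a6 : ip (st v2) (D v2) = 0) :
    v1 = 0 ∧ v2 = 0 ∧ y3 = 0 := by
  obtain ⟨h, x, hv2, hx, hh, hU⟩ := decomp l2
  set x' : Finset (Fin n) → ℝ := x + (1 / 3 : ℝ) • y3 with hx'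
  have lx' : Lev (s + 3) x' := hx.add (l3.smul _)
  set w : Finset (Fin n) → ℝ := D x with hw
  set w' : Finset (Fin n) → ℝ := D x' with hw'
  have ew' : w' = w + (1 / 3 : ℝ) • D y3 := by
    rw [hw', hx', D_add, D_smul]
  have ey2 : y2 = h + w' := by
    rw [h2, hv2, ew', add_assoc]
  have eDy2 : D y2 = D h + D w' := by
    rw [ey2, D_add]
  set fp : Finset (Fin n) → ℝ := (-1 / 2 : ℝ) • D w' with hfp
  set fh : Finset (Fin n) → ℝ := y1 + (-1 / 2 : ℝ) • D h with hfh
  have ev1 : v1 = fh + fp := by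
    have : v1 = y1 + (-1 / 2 : ℝ) • D y2 := by
      rw [h1]
      funext S
      simp only [Pi.add_apply, Pi.smul_apply, smul_eq_mul]
      ring
    rw [this, eDy2, hfh, hfp]
    funext S
    simp only [Pi.add_apply, Pi.smul_apply, smul_eq_mul]
    ring
  have lDh : Lev (s + 1) (D h) := hh.D
  have hDDh : D (D h) = 0 := high_harm_D hn hh hU
  have lfh : Lev (s + 1) fh := ly1.add (lDh.smul _)
  have hDfh : D fh = 0 := by
    rw [hfh, D_add, D_smul, h0, hDDh]
    simp
  have hDh := high_harm hn hh hU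
  -- the norm of `fp`
  set a := ip fp fp with ha
  have e1 : ip (D w') (D w') = 4 * a := by
    rw [ha, hfp, ip_smul_left, ip_smul_right]
    ring
  have b1 : ip fp (D (D y3)) = 0 := by
    have := a2
    rw [ev1, ip_add_left, harm_orth hn lfh hDfh, zero_add] at this
    exact this
  have b2 : ip (D w') (D w) = 4 * a := by
    have e2 : D w' = D w + (1 / 3 : ℝ) • D (D y3) := by
      rw [ew', D_add, D_smul]
    have e3 : ip (D w') (D (D y3)) = 0 := by
      have : ip fp (D (D y3)) = (-1 / 2) * ip (D w') (D (D y3)) := by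
        rw [hfp, ip_smul_left]
      rw [this] at b1
      linarith
    rw [← e1]
    conv_rhs => rw [e2, ip_add_right, ← e2]
    rw [ip_smul_right, e3]
    ring
  have b3 : ip fp (D w) = -2 * a := by
    rw [hfp, ip_smul_left, b2]
    ring
  have b4 : ip fp (D h) = 0 := by
    rw [hfp, ip_smul_left, ip_comm, hw', harm_orth hn lDh hDDh, mul_zero]
  have b5 : ip fh (D w) = 0 := harm_orth hn lfh hDfh x
  have b6 : ip fh (D h) = 2 * a := by
    have := a1
    rw [hv2, D_add, ev1, ip_add_left, ip_add_right, ip_add_right, b5, b4, b3] at this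
    linarith
  -- the complement relation
  have b7 : ip fh (st w) = 0 := by
    rw [hw, st_D, ← adj, hDfh, ip_zero_left]
  have lsth : Lev (s + 1) (st h) := Lev.st (by omega) hh
  have hDsth : D (st h) = 0 := by
    rw [D_st, hU]
    rfl
  have b8 : ip fp (st h) = 0 := by
    rw [hfp, ip_smul_left, ip_comm, hw', harm_orth hn lsth hDsth, mul_zero]
  have b9 : ip fh (st h) = - ip fp (st w) := by
    have := a4
    rw [hv2, st_add, ev1, ip_add_left, ip_add_right, ip_add_right, b7, b8] at this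
    linarith
  have b10 : (2 * a) ^ 2 ≤ a * ip w w := by
    have e4 : 2 * a = (-1 : ℝ) ^ (s + 1) * ip fh (st h) := by
      rw [← b6, hDh, ip_smul_right]
    have e5 : (2 * a) ^ 2 = ip fp (st w) ^ 2 := by
      rw [e4, b9, mul_pow, ← pow_mul, mul_comm (s + 1) 2, pow_mul]
      norm_num
    rw [e5]
    refine (ip_sq_le fp (st w)).trans ?_
    rw [ip_st]
  -- the relation on the upper level
  have b11 : ip w (D y3) = 0 := by
    have := a3
    rw [hv2, ip_add_left] at this
    have e6 : ip h (D y3) = 0 := by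
      rw [ip_comm, adj, hU, ip_zero_right]
    linarith
  have b12 : ip w w' = ip w w := by
    rw [ew', ip_add_right, ip_smul_right, b11]
    ring
  have b13 : ip w w ^ 2 ≤ ip w w * ip w' w' := by
    have := ip_sq_le w w'
    rwa [b12] at this
  have b14 : 4 * ip w' w' ≤ 4 * a := by
    rw [← e1]
    exact expand hn lx'
  have ha0 : 0 ≤ a := ip_self_nonneg fp
  have hb0 : 0 ≤ ip w w := ip_self_nonneg w
  have hc0 : 0 ≤ ip w' w' := ip_self_nonneg w'
  have hb_le : ip w w ≤ ip w' w' := by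
    by_contra hcon
    rw [not_le] at hcon
    nlinarith
  have hba : ip w w ≤ a := by linarith
  have haz : a = 0 := by nlinarith
  have hfp0 : fp = 0 := eq_zero_of_ip haz
  have hww : ip w w = 0 := by linarith
  have hw0 : w = 0 := eq_zero_of_ip hww
  have hw'0 : w' = 0 := eq_zero_of_ip (by linarith)
  have hv1 : v1 = fh := by rw [ev1, hfp0, add_zero]
  have hv2' : v2 = h := by rw [hv2, hw0, add_zero]
  refine ⟨?_, ?_, ?_⟩
  · rw [hv1] at a5
    rw [harm (k := s + 1) (by omega) lfh hDfh, ip_smul_right] at a5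
    rw [hv1]
    apply eq_zero_of_ip
    rcases mul_eq_zero.1 a5 with h' | h'
    · exact absurd h' (pow_ne_zero _ (by norm_num))
    · exact h'
  · rw [hv2'] at a6
    rw [hDh, ip_smul_right, ip_st] at a6
    rw [hv2']
    apply eq_zero_of_ip
    rcases mul_eq_zero.1 a6 with h' | h'
    · exact absurd h' (pow_ne_zero _ (by norm_num))
    · exact h'
  · refine D_inj (t := s + 3) (by omega) l3 ?_
    have : (1 / 3 : ℝ) • D y3 = 0 := by
      rw [hw0, zero_add] at ew'
      rw [← ew', hw'0]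
    funext S
    have h7 := congrFun this S
    simp only [Pi.smul_apply, smul_eq_mul, Pi.zero_apply] at h7
    rw [Pi.zero_apply]
    linarith

end middle

end Pool.Agent.OddTwo
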