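import Mathlib

/-! # MP_f155e9_co, `n` odd, `k = 2`: the up and down operators -/

set_option autoImplicit false

namespace Pool.Agent.OddTwo

open Finset

variable {n : ℕ}

/-- the down operator -/
def D (f : Finset (Fin n) → ℝ) (S : Finset (Fin n)) : ℝ := ∑ x ∈ Sᶜ, f (insert x S)

/-- the up operator -/
def U (f : Finset (Fin n) → ℝ) (S : Finset (Fin n)) : ℝ := ∑ x ∈ S, f (S.erase x)

/-- the inner product -/
def ip (f g : Finset (Fin n) → ℝ) : ℝ := ∑ S, f S * g S

/-- the complement -/
def st (f : Finset (Fin n) → ℝ) (S : Finset (Fin n)) : ℝ := f Sᶜ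

/-- supported on level `t` -/
def Lev (t : ℕ) (f : Finset (Fin n) → ℝ) : Prop := ∀ S, S.card ≠ t → f S = 0

theorem D_add (f g : Finset (Fin n) → ℝ) : D (f + g) = D f + D g := by
  funext S
  simp only [D, Pi.add_apply, sum_add_distrib]

theorem D_smul (a : ℝ) (f : Finset (Fin n) → ℝ) : D (a • f) = a • D f := by
  funext S
  simp only [D, Pi.smul_apply, smul_eq_mul, mul_sum]

theorem U_add (f g : Finset (Fin n) → ℝ) : U (f + g) = U f + U g := by
  funext S
  simp only [U, Pi.add_apply, sum_add_distrib]

theorem U_smul (a : ℝ) (f : Finset (Fin n) → ℝ) : U (a • f) = a • U f := by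
  funext S
  simp only [U, Pi.smul_apply, smul_eq_mul, mul_sum]

theorem ip_add_left (f g h : Finset (Fin n) → ℝ) : ip (f + g) h = ip f h + ip g h := by
  simp only [ip, Pi.add_apply, add_mul, sum_add_distrib]

theorem ip_add_right (f g h : Finset (Fin n) → ℝ) : ip f (g + h) = ip f g + ip f h := by
  simp only [ip, Pi.add_apply, mul_add, sum_add_distrib]

theorem ip_smul_left (a : ℝ) (f g : Finset (Fin n) → ℝ) : ip (a • f) g = a * ip f g := by
  simp only [ip, Pi.smul_apply, smul_eq_mul, mul_assoc, mul_sum]

theorem ip_smul_right (a : ℝ) (f g : Finset (Fin n) → ℝ) : ip f (a • g) = a * ip f g := by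
  simp only [ip, Pi.smul_apply, smul_eq_mul, mul_sum]
  exact sum_congr rfl fun S _ => by ring

theorem ip_comm (f g : Finset (Fin n) → ℝ) : ip f g = ip g f :=
  sum_congr rfl fun S _ => mul_comm _ _

theorem ip_zero_left (g : Finset (Fin n) → ℝ) : ip 0 g = 0 := by
  simp [ip]

theorem ip_zero_right (g : Finset (Fin n) → ℝ) : ip g 0 = 0 := by
  simp [ip]

theorem ip_self_nonneg (f : Finset (Fin n) → ℝ) : 0 ≤ ip f f :=
  sum_nonneg fun S _ => mul_self_nonneg _

theorem eq_zero_of_ip {f : Finset (Fin n) → ℝ} (h : ip f f = 0) : f = 0 := by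
  funext S
  have h1 := (sum_eq_zero_iff_of_nonneg (fun S _ => mul_self_nonneg (f S))).1 h S (mem_univ S)
  exact mul_self_eq_zero.1 h1

/-- Cauchy-Schwarz -/
theorem ip_sq_le (f g : Finset (Fin n) → ℝ) : ip f g ^ 2 ≤ ip f f * ip g g := by
  have := sum_mul_sq_le_sq_mul_sq univ f g
  simp only [ip]
  refine this.trans (le_of_eq ?_)
  simp only [sq]

theorem adj (f g : Finset (Fin n) → ℝ) : ip (D f) g = ip f (U g) := by
  simp only [ip, D, U, sum_mul, mul_sum]
  rw [sum_sigma', sum_sigma']
  refine sum_bij' (fun p _ => ⟨insert p.2 p.1, p.2⟩) (fun p _ => ⟨p.1.erase p.2, p.2⟩)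
    ?_ ?_ ?_ ?_ ?_
  · rintro ⟨S, x⟩ h
    simp
  · rintro ⟨S, x⟩ h
    simp
  · rintro ⟨S, x⟩ h
    simp only [mem_sigma, mem_univ, true_and, mem_compl] at h
    simp [h]
  · rintro ⟨S, x⟩ h
    simp only [mem_sigma, mem_univ, true_and] at h
    simp [h]
  · rintro ⟨S, x⟩ h
    simp only [mem_sigma, mem_univ, true_and, mem_compl] at h
    simp [h]

theorem comm (f : Finset (Fin n) → ℝ) (S : Finset (Fin n)) :
    D (U f) S = U (D f) S + ((n : ℝ) - 2 * S.card) * f S := by
  have h1 : D (U f) S = (Sᶜ).card * f S + ∑ x ∈ Sᶜ, ∑ y ∈ S, f (insert x (S.erase y)) := by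
    simp only [D, U]
    rw [← nsmul_eq_mul, ← sum_const, ← sum_add_distrib]
    refine sum_congr rfl fun x hx => ?_
    rw [mem_compl] at hx
    rw [sum_insert hx, erase_insert hx]
    congr 1
    refine sum_congr rfl fun y hy => ?_
    rw [erase_insert_of_ne]
    rintro rfl
    exact hx hy
  have h2 : U (D f) S = S.card * f S + ∑ x ∈ Sᶜ, ∑ y ∈ S, f (insert x (S.erase y)) := by
    simp only [D, U]
    rw [sum_comm (s := Sᶜ), ← nsmul_eq_mul, ← sum_const, ← sum_add_distrib]
    refine sum_congr rfl fun y hy => ?_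
    have h3 : (S.erase y)ᶜ = insert y Sᶜ := by
      ext z
      simp only [mem_compl, mem_erase, mem_insert, not_and_or, not_not]
    rw [h3, sum_insert (by simpa using hy), insert_erase hy]
  rw [h1, h2, card_compl, Fintype.card_fin, Nat.cast_sub (by simpa using card_le_univ S)]
  ring

theorem Lev.D {t : ℕ} {f : Finset (Fin n) → ℝ} (h : Lev (t + 1) f) : Lev t (D f) := by
  intro S hS
  refine sum_eq_zero fun x hx => h _ ?_
  rw [card_insert_of_notMem (mem_compl.1 hx)]
  omega

theorem Lev.U {t : ℕ} {f : Finset (Fin n) → ℝ} (h : Lev t f) : Lev (t + 1) (U f) := by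
  intro S hS
  refine sum_eq_zero fun x hx => h _ ?_
  have := card_pos.2 ⟨x, hx⟩
  rw [card_erase_of_mem hx]
  omega

theorem Lev.st {t u : ℕ} (htu : t + u = n) {f : Finset (Fin n) → ℝ} (h : Lev t f) :
    Lev u (st f) := by
  intro S hS
  refine h _ ?_
  have h1 : S.card ≤ n := by simpa using card_le_univ S
  rw [card_compl, Fintype.card_fin]
  omega

theorem Lev.add {t : ℕ} {f g : Finset (Fin n) → ℝ} (hf : Lev t f) (hg : Lev t g) :
    Lev t (f + g) := fun S hS => by
  rw [Pi.add_apply, hf S hS, hg S hS, add_zero]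

theorem Lev.smul {t : ℕ} {f : Finset (Fin n) → ℝ} (a : ℝ) (hf : Lev t f) :
    Lev t (a • f) := fun S hS => by
  rw [Pi.smul_apply, hf S hS, smul_zero]

theorem comm_lev {t : ℕ} {f : Finset (Fin n) → ℝ} (hf : Lev t f) :
    OddTwo.D (OddTwo.U f) = OddTwo.U (OddTwo.D f) + ((n : ℝ) - 2 * t) • f := by
  funext S
  rw [comm, Pi.add_apply, Pi.smul_apply, smul_eq_mul]
  by_cases h : S.card = t
  · rw [h]
  · rw [hf S h, mul_zero, mul_zero]

theorem norm_id {t : ℕ} {f : Finset (Fin n) → ℝ} (hf : Lev t f) :
    ip (D f) (D f) = ip (U f) (U f) + (2 * t - n) * ip f f := by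
  have h1 : ip (D f) (D f) = ip f (U (D f)) := adj f (D f)
  have h2 : ip (U f) (U f) = ip f (D (U f)) := by
    rw [← adj, ip_comm]
  rw [h1, h2, comm_lev hf, ip_add_right, ip_smul_right]
  ring

/-- `D` is injective above the middle -/
theorem D_inj {t : ℕ} (ht : n < 2 * t) {f : Finset (Fin n) → ℝ} (hf : Lev t f)
    (h : D f = 0) : f = 0 := by
  have h1 := norm_id hf
  rw [h, ip_zero_left] at h1
  have h2 := ip_self_nonneg (U f)
  have h3 := ip_self_nonneg f
  have h4 : (0 : ℝ) < 2 * t - n := by
    have : (n : ℝ) < 2 * t := by exact_mod_cast ht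
    linarith
  apply eq_zero_of_ip
  nlinarith

theorem D_st (f : Finset (Fin n) → ℝ) : D (st f) = st (U f) := by
  funext S
  simp only [D, st, U]
  refine sum_congr rfl fun x _ => ?_
  rw [compl_insert]

theorem st_D (f : Finset (Fin n) → ℝ) : st (D f) = U (st f) := by
  funext S
  simp only [D, st, U, compl_compl]
  refine sum_congr rfl fun x _ => ?_
  rw [compl_erase]

theorem st_add (f g : Finset (Fin n) → ℝ) : st (f + g) = st f + st g := rfl

theorem st_st (f : Finset (Fin n) → ℝ) : st (st f) = f := by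
  funext S
  simp [st]

theorem ip_st (f g : Finset (Fin n) → ℝ) : ip (st f) (st g) = ip f g := by
  simp only [ip, st]
  exact Equiv.sum_comp (Equiv.ofBijective (fun S : Finset (Fin n) => Sᶜ) compl_bijective)
    (fun S => f S * g S)

/-- sum over the supersets -/
def M (y : Finset (Fin n) → ℝ) (T : Finset (Fin n)) : ℝ := ∑ A with T ⊆ A, y A

theorem M_step {k : ℕ} {y : Finset (Fin n) → ℝ} (hy : Lev k y) (T : Finset (Fin n)) :
    ∑ x ∈ Tᶜ, M y (insert x T) = ((k : ℝ) - T.card) * M y T := by
  simp only [M, mul_sum, sum_filter]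
  rw [sum_comm]
  refine sum_congr rfl fun A _ => ?_
  by_cases hk : A.card = k
  · by_cases hT : T ⊆ A
    · rw [if_pos hT]
      have h1 : ∑ x ∈ Tᶜ, (if insert x T ⊆ A then y A else 0) = ∑ x ∈ A \ T, y A := by
        rw [← sum_filter]
        congr 1
        ext x
        simp only [mem_filter, mem_compl, mem_sdiff, insert_subset_iff]
        tauto
      rw [h1, sum_const, nsmul_eq_mul, card_sdiff_of_subset hT, hk,
        Nat.cast_sub (by rw [← hk]; exact card_le_card hT)]
    · rw [if_neg hT, mul_zero]
      refine sum_eq_zero fun x _ => ?_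
      rw [if_neg]
      intro h
      exact hT ((subset_insert x T).trans h)
  · rw [hy A hk]
    simp

theorem M_top {k : ℕ} {y : Finset (Fin n) → ℝ} (hy : Lev k y) {T : Finset (Fin n)}
    (hT : T.card = k) : M y T = y T := by
  rw [M]
  refine sum_eq_single T ?_ ?_
  · intro A hA hne
    rw [mem_filter] at hA
    refine hy A fun h => hne ?_
    exact (eq_of_subset_of_card_le hA.2 (by rw [h, hT])).symm
  · intro h
    exact absurd (mem_filter.2 ⟨mem_univ T, Subset.refl T⟩) h

theorem M_zero {k : ℕ} {y : Finset (Fin n) → ℝ} (hy : Lev k y) (h0 : D y = 0) :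
    ∀ j : ℕ, ∀ T : Finset (Fin n), T.card + (j + 1) = k → M y T = 0 := by
  intro j
  induction j with
  | zero =>
    intro T hT
    have h1 := M_step hy T
    have h2 : ∑ x ∈ Tᶜ, M y (insert x T) = D y T := by
      rw [D]
      refine sum_congr rfl fun x hx => M_top hy ?_
      rw [card_insert_of_notMem (mem_compl.1 hx)]
      omega
    rw [h2, h0, Pi.zero_apply] at h1
    have h3 : (k : ℝ) - T.card = 1 := by
      rw [← hT]
      push_cast
      ring
    rw [h3, one_mul] at h1
    exact h1.symm
  | succ j ih =>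
    intro T hT
    have h1 := M_step hy T
    have h2 : ∑ x ∈ Tᶜ, M y (insert x T) = 0 := by
      refine sum_eq_zero fun x hx => ih _ ?_
      rw [card_insert_of_notMem (mem_compl.1 hx)]
      omega
    rw [h2] at h1
    have h3 : (k : ℝ) - T.card ≠ 0 := by
      rw [← hT]
      push_cast
      have : (0 : ℝ) ≤ j := Nat.cast_nonneg j
      intro h
      linarith
    rcases mul_eq_zero.1 h1.symm with h | h
    · exact absurd h h3
    · exact h

/-- on harmonic functions in the middle, `D ∘ st` is a sign -/
theorem harm {k : ℕ} (hn : n = 2 * k + 1) {y : Finset (Fin n) → ℝ} (hy : Lev k y)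
    (h0 : D y = 0) : D (st y) = (-1 : ℝ) ^ k • y := by
  funext S
  rw [Pi.smul_apply, smul_eq_mul]
  by_cases hS : S.card = k
  · -- inclusion-exclusion
    have h1 : ∑ T ∈ S.powerset, (-1 : ℝ) ^ T.card * M y T = (-1) ^ k * y S := by
      rw [sum_eq_single S]
      · rw [hS, M_top hy hS]
      · intro T hT hne
        rw [mem_powerset] at hT
        have hlt : T.card < S.card := card_lt_card (hT.ssubset_of_ne hne)
        rw [M_zero hy h0 (k - T.card - 1) T (by omega), mul_zero]
      · intro h
        exact absurd (mem_powerset_self S) h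
    have h2 : ∑ T ∈ S.powerset, (-1 : ℝ) ^ T.card * M y T =
        ∑ A, if Disjoint A S then y A else 0 := by
      simp only [M, mul_sum, sum_filter]
      rw [sum_comm]
      refine sum_congr rfl fun A _ => ?_
      have h3 : ∑ T ∈ S.powerset, (-1 : ℝ) ^ T.card * (if T ⊆ A then y A else 0) =
          (∑ T ∈ (S ∩ A).powerset, (-1 : ℝ) ^ T.card) * y A := by
        rw [sum_mul]
        have h4 : (S ∩ A).powerset = S.powerset.filter (fun T => T ⊆ A) := by
          ext T
          simp only [mem_powerset, mem_filter, subset_inter_iff]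
        rw [h4, sum_filter]
        refine sum_congr rfl fun T _ => ?_
        split_ifs <;> simp
      rw [h3]
      have h5 : (∑ T ∈ (S ∩ A).powerset, (-1 : ℝ) ^ T.card) =
          if S ∩ A = ∅ then 1 else 0 := by
        have := sum_powerset_neg_one_pow_card (x := S ∩ A)
        have h6 : ((∑ T ∈ (S ∩ A).powerset, (-1 : ℤ) ^ T.card : ℤ) : ℝ) =
            ((if S ∩ A = ∅ then 1 else 0 : ℤ) : ℝ) := by rw [this]
        push_cast at h6
        exact h6
      rw [h5]
      by_cases h : Disjoint A S
      · rw [if_pos h, if_pos (disjoint_iff_inter_eq_empty.1 h.symm), one_mul]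
      · rw [if_neg h, if_neg (fun h' => h (disjoint_iff_inter_eq_empty.2 h').symm), zero_mul]
    rw [← h1, h2]
    -- the disjoint sets of size `k`
    rw [D]
    have h7 : ∑ A, (if Disjoint A S then y A else 0) = ∑ A ∈ (Sᶜ).image (fun x => (insert x S)ᶜ),
        y A := by
      rw [← sum_filter]
      symm
      refine sum_subset ?_ ?_
      · intro A hA
        rw [mem_image] at hA
        obtain ⟨x, hx, rfl⟩ := hA
        rw [mem_filter]
        refine ⟨mem_univ _, ?_⟩
        rw [disjoint_left]
        intro z hz hz'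
        exact (mem_compl.1 hz) (mem_insert_of_mem hz')
      · intro A hA hA'
        rw [mem_filter] at hA
        refine hy A fun hc => hA' ?_
        have h8 : A ⊆ Sᶜ := by
          intro z hz
          rw [mem_compl]
          exact disjoint_left.1 hA.2 hz
        have h9 : (Sᶜ \ A).card = 1 := by
          rw [card_sdiff_of_subset h8, card_compl, Fintype.card_fin, hS, hc]
          omega
        obtain ⟨x, hx⟩ := card_eq_one.1 h9
        have hxm : x ∈ Sᶜ \ A := by rw [hx]; exact mem_singleton_self x
        rw [mem_image]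
        refine ⟨x, (mem_sdiff.1 hxm).1, ?_⟩
        rw [compl_insert]
        have h10 : Sᶜ.erase x = A := by
          ext z
          rw [mem_erase]
          constructor
          · rintro ⟨hz, hz'⟩
            by_contra hzA
            have : z ∈ Sᶜ \ A := mem_sdiff.2 ⟨hz', hzA⟩
            rw [hx, mem_singleton] at this
            exact hz this
          · intro hz
            refine ⟨?_, h8 hz⟩
            rintro rfl
            exact (mem_sdiff.1 hxm).2 hz
        exact h10
    rw [h7, sum_image]
    · rfl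
    · intro x hx z hz h
      have hx' : x ∉ S := mem_compl.1 hx
      have hz' : z ∉ S := mem_compl.1 hz
      have h' : insert x S = insert z S := compl_injective h
      have : x ∈ insert z S := by rw [← h']; exact mem_insert_self x S
      rcases mem_insert.1 this with h | h
      · exact h
      · exact absurd h hx'
  · rw [hy S hS, mul_zero]
    have h1 : Lev k (D (st y)) := (Lev.st (t := k) (u := k + 1) (by omega) hy).D
    exact h1 S hS

end Pool.Agent.OddTwo
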